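import Pool.Agent.Lib.MP_305fdd_al.Fr.T.Tree

/-!
# Edges of the tree `T_X`: stabilisers of edges
-/

set_option autoImplicit false

namespace Pool.Agent.FrT

namespace PA

variable {S V : Type} (P : PA S V) {G : Type} [Group G] (π : FreeGroup S →* G)

theorem dquot_eq_iff (x y : G × V × V) :
    (Quot.mk (P.DRel π) x = Quot.mk (P.DRel π) y) → ∃ γ, P.Path γ x.2.1 y.2.1 ∧
      P.Path γ x.2.2 y.2.2 ∧ x.1 = y.1 * π (lab γ) := by
  intro h
  have h' := Quot.eqvGen_exact h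
  have key : ∀ x y : G × V × V, Relation.EqvGen (P.DRel π) x y →
      ∃ γ, P.Path γ x.2.1 y.2.1 ∧ P.Path γ x.2.2 y.2.2 ∧ x.1 = y.1 * π (lab γ) := by
    intro x y hxy
    induction hxy with
    | rel x y h =>
      obtain ⟨s, h1, h2, h3, h4, h5⟩ := h
      refine ⟨[(s, true)], ⟨y.2.1, by simp [Stp, h1, h4], rfl⟩, ⟨y.2.2, by simp [Stp, h2, h5], rfl⟩,
        ?_⟩
      simp [lab, sg, h3]
    | refl x => exact ⟨[], rfl, rfl, by simp [lab]⟩
    | symm x y _ ih =>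
      obtain ⟨γ, h1, h2, h3⟩ := ih
      refine ⟨rev γ, P.path_rev γ _ _ h1, P.path_rev γ _ _ h2, ?_⟩
      rw [lab_rev, map_inv, h3, mul_inv_cancel_right]
    | trans x y z _ _ ih1 ih2 =>
      obtain ⟨γ, h1, h2, h3⟩ := ih1
      obtain ⟨δ, h4, h5, h6⟩ := ih2
      refine ⟨γ ++ δ, (P.path_append γ δ _ _).2 ⟨_, h1, h4⟩,
        (P.path_append γ δ _ _).2 ⟨_, h2, h5⟩, ?_⟩
      rw [lab_append, map_mul, ← mul_assoc, ← h6, h3]
  exact key _ _ h'

/-- If two edges of the copies have the same end points in the tree, they are connected by a word. -/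
theorem edge_unique (hP : P.Good) (hπ : Function.Surjective π) {R : Set (FreeGroup S)}
    (hker : ∀ w, π w = 1 → w ∈ Subgroup.normalClosure R)
    (hR : ∀ r ∈ R, π r = 1 ∧ ∃ γ p, P.Path γ p p ∧ lab γ = r) {g g0 : G} {p q p0 q0 : V}
    (h : P.K.Adj p q) (h0 : P.K.Adj p0 q0) (hp : P.pt π g p = P.pt π g0 p0)
    (hq : P.pt π g q = P.pt π g0 q0) :
    ∃ γ, P.Path γ p p0 ∧ P.Path γ q q0 ∧ g = g0 * π (lab γ) := by
  classical
  let D : G → V → V → Quot (P.DRel π) := fun g p q => Quot.mk _ (g, p, q)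
  have Dinv : ∀ g s p q, p ∈ P.dom s → q ∈ P.dom s →
      D (g * π (FreeGroup.of s)) p q = D g (P.act s p) (P.act s q) := fun g s p q hp hq =>
    Quot.sound ⟨s, hp, hq, rfl, rfl, rfl⟩
  let D1 : Quot (P.DRel π) → P.TV π := Quot.lift (fun x => P.pt π x.1 x.2.1) (by
    rintro x y ⟨s, h1, h2, h3, h4, h5⟩
    show P.pt π x.1 x.2.1 = P.pt π y.1 y.2.1
    rw [h3, h4, P.pt_step π _ s _ h1])
  have hD1 : ∀ g p q, D1 (D g p q) = P.pt π g p := fun _ _ _ => rfl
  let c : G → V → V → ℤ := fun g p q =>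
    (if D g p q = D g0 p0 q0 then 1 else 0) - (if D g q p = D g0 p0 q0 then 1 else 0)
  obtain ⟨f, hf1, hf2⟩ := P.descend π hP hπ hker hR c
    (fun g p q _ => by simp only [c]; ring)
    (fun g s p q hp hq _ => by
      simp only [c]
      rw [Dinv g s p q hp hq, Dinv g s q p hq hp])
  let F : P.TV π → ℤ := Quot.lift (fun x => f x.1 x.2) (by
    rintro x y ⟨s, h1, h2, h3⟩
    show f x.1 x.2 = f y.1 y.2
    rw [h2, h3, hf2 _ s _ h1])
  have hF : ∀ g p, F (P.pt π g p) = f g p := fun _ _ => rfl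
  have hrev : D g0 q0 p0 ≠ D g0 p0 q0 := by
    intro h
    have h1 := congrArg (P.tcol π hP) (congrArg D1 h)
    rw [hD1, hD1, tcol_pt, tcol_pt] at h1
    exact hP.colK _ _ h0 h1.symm
  have e0 : f g0 q0 = f g0 p0 + 1 := by
    rw [hf1 g0 p0 q0 h0]
    simp only [c, if_true, if_neg hrev]
    omega
  have e1 : f g p = f g0 p0 := by rw [← hF, ← hF, hp]
  have e2 : f g q = f g0 q0 := by rw [← hF, ← hF, hq]
  have e3 := hf1 g p q h
  have hc : c g p q = 1 := by omega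
  simp only [c] at hc
  have hDD : D g p q = D g0 p0 q0 := by
    by_contra hne
    rw [if_neg hne] at hc
    split_ifs at hc <;> omega
  exact P.dquot_eq_iff π _ _ hDD

/-- the stabiliser of an edge of the copy `1` -/
theorem edge_stab (hP : P.Good) (hπ : Function.Surjective π) {R : Set (FreeGroup S)}
    (hker : ∀ w, π w = 1 → w ∈ Subgroup.normalClosure R)
    (hR : ∀ r ∈ R, π r = 1 ∧ ∃ γ p, P.Path γ p p ∧ lab γ = r) {p q : V}
    (h : P.K.Adj p q) (g : G) :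
    (g • P.pt π 1 p = P.pt π 1 p ∧ g • P.pt π 1 q = P.pt π 1 q) ↔
      ∃ γ, P.Path γ p p ∧ P.Path γ q q ∧ g = π (lab γ) := by
  constructor
  · rintro ⟨h1, h2⟩
    rw [smul_pt, mul_one] at h1 h2
    obtain ⟨γ, h3, h4, h5⟩ := P.edge_unique π hP hπ hker hR h h h1 h2
    exact ⟨γ, h3, h4, by rw [h5, one_mul]⟩
  · rintro ⟨γ, h1, h2, h3⟩
    rw [h3, smul_pt, smul_pt, mul_one]
    constructor
    · have := P.pt_path π γ 1 p p h1
      rwa [one_mul] at this
    · have := P.pt_path π γ 1 q q h2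
      rwa [one_mul] at this

end PA

end Pool.Agent.FrT
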