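import Mathlib

/-!
# One-edge splittings from actions on trees (Bass-Serre theory for one orbit of edges)

`G` acts on a tree `X`, `(u, v)` is an edge which is not inverted.  `Rch` is the relation of being
connected outside the orbit of this edge.  `SA = {g | g u ~ u}`, `SB = {g | g v ~ v}`,
`SC` = stabiliser of the edge.  If no translate of `u` is related to `v` then `G = SA *_SC SB`;
if `t u ~ v` then `G` is an HNN extension of `SA` with stable letter `t`.
Injectivity: group valued potentials on trees.
-/

set_option autoImplicit false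
set_option linter.unusedSectionVars false
set_option linter.unusedVariables false

open Monoid

namespace Pool.Agent.FrT

private def wpG {V F : Type} [Group F] {X : SimpleGraph V} (c : V → V → F) :
    {u v : V} → X.Walk u v → F
  | _, _, .nil => 1
  | a, _, .cons (v := b) _ q => c a b * wpG c q

private theorem wpG_append {V F : Type} [Group F] {X : SimpleGraph V} (c : V → V → F) {u v w : V}
    (p : X.Walk u v) (q : X.Walk v w) : wpG c (p.append q) = wpG c p * wpG c q := by
  induction p with
  | nil => simp [wpG]
  | cons h p ih => simp [wpG, ih, mul_assoc]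

private theorem wpG_single {V F : Type} [Group F] {X : SimpleGraph V} (c : V → V → F) {u v : V}
    (h : X.Adj u v) : wpG c (SimpleGraph.Walk.cons h SimpleGraph.Walk.nil) = c u v := by
  simp [wpG]

/-- group valued potentials on trees -/
theorem potG {V F : Type} [Group F] {X : SimpleGraph V} (hX : X.IsTree) (c : V → V → F)
    (hc : ∀ u v, X.Adj u v → c v u = (c u v)⁻¹) :
    ∃ P : V → F, ∀ u v, X.Adj u v → P v = P u * c u v := by
  classical
  obtain ⟨v0⟩ := hX.isConnected.nonempty
  have hu : ∀ {a b : V} (p q : X.Walk a b), p.IsPath → q.IsPath → p = q := by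
    intro a b p q hp hq
    have := hX.isAcyclic.path_unique ⟨p, hp⟩ ⟨q, hq⟩
    exact congrArg Subtype.val this
  choose p hp hp' using fun v => hX.existsUnique_path v0 v
  refine ⟨fun v => wpG c (p v), ?_⟩
  intro u v h
  show wpG c (p v) = wpG c (p u) * c u v
  by_cases hv : v ∈ (p u).support
  · have h1 : (p u).takeUntil v hv = p v := hu _ _ ((hp u).takeUntil hv) (hp v)
    have h2 : (p u).dropUntil v hv = SimpleGraph.Walk.cons h.symm SimpleGraph.Walk.nil := by
      refine hu _ _ ((hp u).dropUntil hv) ?_
      simp [SimpleGraph.Walk.cons_isPath_iff, h.ne']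
    have h3 : wpG c (p u) = wpG c (p v) * c v u := by
      rw [← (p u).take_spec hv, wpG_append, h1, h2, wpG_single]
    rw [h3, hc u v h]
    simp
  · have h1 : (p u).concat h = p v := hu _ _ ((hp u).concat hv h) (hp v)
    rw [← h1, SimpleGraph.Walk.concat_eq_append, wpG_append, wpG_single]

section
variable {G V : Type} [Group G] [MulAction G V]

/-- the orbit of the edge -/
def Orb (G : Type) {V : Type} [Group G] [MulAction G V] (u v : V) : Set (Sym2 V) :=
  {e | ∃ g : G, e = s(g • u, g • v)}

/-- connected outside the orbit of the edge -/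
def Rch (G : Type) {V : Type} [Group G] [MulAction G V] (X : SimpleGraph V) (u v x y : V) : Prop :=
  (X.deleteEdges (Orb G u v)).Reachable x y

variable (X : SimpleGraph V) (hact : ∀ (g : G) (x y : V), X.Adj x y → X.Adj (g • x) (g • y))
  (u v : V)

theorem Rch.refl (x : V) : Rch G X u v x x := SimpleGraph.Reachable.refl _

variable {X u v}

theorem Rch.symm {x y : V} (h : Rch G X u v x y) : Rch G X u v y x := SimpleGraph.Reachable.symm h

theorem Rch.trans {x y z : V} (h : Rch G X u v x y) (h' : Rch G X u v y z) : Rch G X u v x z :=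
  SimpleGraph.Reachable.trans h h'

include hact in
theorem Rch.smul (g : G) {x y : V} (h : Rch G X u v x y) : Rch G X u v (g • x) (g • y) := by
  obtain ⟨w⟩ := h
  induction w with
  | nil => exact SimpleGraph.Reachable.refl _
  | @cons a b c hab w ih =>
    refine SimpleGraph.Reachable.trans (SimpleGraph.Adj.reachable ?_) ih
    rw [SimpleGraph.deleteEdges_adj] at hab ⊢
    refine ⟨hact g a b hab.1, ?_⟩
    rintro ⟨k, hk⟩
    apply hab.2
    refine ⟨g⁻¹ * k, ?_⟩
    rw [mul_smul, mul_smul]
    have := congrArg (Sym2.map (fun x => g⁻¹ • x)) hk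
    simpa using this

theorem Rch.adj {x y : V} (h : X.Adj x y) (h' : s(x, y) ∉ Orb G u v) : Rch G X u v x y :=
  SimpleGraph.Adj.reachable (by rw [SimpleGraph.deleteEdges_adj]; exact ⟨h, h'⟩)

/-- the stabiliser of the component of `x` -/
def Sst (x : V) : Subgroup G where
  carrier := {g | Rch G X u v (g • x) x}
  mul_mem' := by
    intro g h hg hh
    show Rch G X u v ((g * h) • x) x
    rw [mul_smul]
    exact (hh.smul hact g).trans hg
  one_mem' := by
    show Rch G X u v ((1 : G) • x) x
    rw [one_smul]
    exact Rch.refl X u v x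
  inv_mem' := by
    intro g hg
    show Rch G X u v (g⁻¹ • x) x
    have := hg.smul hact g⁻¹
    rw [inv_smul_smul] at this
    exact this.symm

theorem mem_Sst {x : V} {g : G} : g ∈ Sst (u := u) (v := v) hact x ↔ Rch G X u v (g • x) x :=
  Iff.rfl

/-- the stabiliser of the edge -/
def SC (G : Type) {V : Type} [Group G] [MulAction G V] (u v : V) : Subgroup G :=
  MulAction.stabilizer G u ⊓ MulAction.stabilizer G v

theorem SC_le_u : SC G u v ≤ Sst (u := u) (v := v) hact u := by
  intro g hg
  rw [mem_Sst, MulAction.mem_stabilizer_iff.1 hg.1]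
  exact Rch.refl X u v u

theorem SC_le_v : SC G u v ≤ Sst (u := u) (v := v) hact v := by
  intro g hg
  rw [mem_Sst, MulAction.mem_stabilizer_iff.1 hg.2]
  exact Rch.refl X u v v

/-- Potentials on the components with prescribed jumps `κ` across the translates of the edge. -/
theorem pot_jump (hX : X.IsTree) (hinv : ∀ g : G, ¬ (g • u = v ∧ g • v = u))
    {F : Type} [Group F] (κ : G → F) (hκ : ∀ g k, k ∈ SC G u v → κ (g * k) = κ g) :
    ∃ Q : V → F, (∀ x y, Rch G X u v x y → Q x = Q y) ∧
      ∀ g : G, X.Adj (g • u) (g • v) → Q (g • v) = Q (g • u) * κ g := by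
  classical
  let c : V → V → F := fun x y =>
    if h : ∃ g : G, g • u = x ∧ g • v = y then κ h.choose
    else if h : ∃ g : G, g • u = y ∧ g • v = x then (κ h.choose)⁻¹ else 1
  have hκ' : ∀ g g' : G, g • u = g' • u → g • v = g' • v → κ g = κ g' := by
    intro g g' h1 h2
    have h3 : g⁻¹ * g' ∈ SC G u v := by
      refine ⟨MulAction.mem_stabilizer_iff.2 ?_, MulAction.mem_stabilizer_iff.2 ?_⟩
      · rw [mul_smul, ← h1, inv_smul_smul]
      · rw [mul_smul, ← h2, inv_smul_smul]
    rw [← hκ g _ h3, mul_inv_cancel_left]
  have hex : ∀ x y, (∃ g : G, g • u = x ∧ g • v = y) → ¬ ∃ g : G, g • u = y ∧ g • v = x := by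
    rintro x y ⟨g, rfl, rfl⟩ ⟨g', h1, h2⟩
    apply hinv (g⁻¹ * g')
    rw [mul_smul, mul_smul, h1, h2, inv_smul_smul, inv_smul_smul]
    exact ⟨rfl, rfl⟩
  have hc : ∀ x y, X.Adj x y → c y x = (c x y)⁻¹ := by
    intro x y _
    simp only [c]
    by_cases h1 : ∃ g : G, g • u = x ∧ g • v = y
    · rw [dif_neg (hex x y h1), dif_pos h1, dif_pos h1]
    · by_cases h2 : ∃ g : G, g • u = y ∧ g • v = x
      · rw [dif_pos h2, dif_neg h1, dif_pos h2, inv_inv]
      · rw [dif_neg h2, dif_neg h1, dif_neg h1, dif_neg h2, inv_one]
  obtain ⟨Q, hQ⟩ := potG hX c hc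
  refine ⟨Q, ?_, ?_⟩
  · rintro x y ⟨w⟩
    induction w with
    | nil => rfl
    | @cons a b d hab w ih =>
      rw [← ih]
      rw [SimpleGraph.deleteEdges_adj] at hab
      have h1 := hQ a b hab.1
      have h2 : ¬ ∃ g : G, g • u = a ∧ g • v = b := by
        rintro ⟨g, e1, e2⟩
        exact hab.2 ⟨g, by rw [e1, e2]⟩
      have h3 : ¬ ∃ g : G, g • u = b ∧ g • v = a := by
        rintro ⟨g, e1, e2⟩
        exact hab.2 ⟨g, by rw [e1, e2]; exact Sym2.eq_swap⟩
      simp only [c] at h1
      rw [dif_neg h2, dif_neg h3, mul_one] at h1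
      exact h1.symm
  · intro g hg
    have h1 : ∃ g' : G, g' • u = g • u ∧ g' • v = g • v := ⟨g, rfl, rfl⟩
    rw [hQ _ _ hg]
    simp only [c]
    rw [dif_pos h1, hκ' _ _ h1.choose_spec.1 h1.choose_spec.2]

/-- AMALGAM: if no translate of `u` is related to `v`. -/
theorem amalg (hX : X.IsTree) (hinv : ∀ g : G, ¬ (g • u = v ∧ g • v = u)) (huv : X.Adj u v)
    (hno : ∀ g : G, ¬ Rch G X u v (g • u) v)
    (S : Fin 2 → Subgroup G) (hS0 : S 0 = Sst (u := u) (v := v) hact u)
    (hS1 : S 1 = Sst (u := u) (v := v) hact v) (hC : ∀ i, SC G u v ≤ S i) :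
    Function.Bijective (PushoutI.lift (φ := fun i => Subgroup.inclusion (hC i))
      (fun i => (S i).subtype) (SC G u v).subtype (fun i => by ext x; rfl)) := by
  classical
  set φ : ∀ i, SC G u v →* S i := fun i => Subgroup.inclusion (hC i) with hφ
  set nat : PushoutI φ →* G := PushoutI.lift (φ := φ)
      (fun i => (S i).subtype) (SC G u v).subtype (fun i => by ext x; rfl) with hnat
  have hnat_of : ∀ i (a : S i), nat (PushoutI.of i a) = a := by
    intro i a
    rw [hnat, PushoutI.lift_of]
    rfl
  have hbase : ∀ (c : SC G u v), (PushoutI.of (φ := φ) 0 ⟨c, hC 0 c.2⟩ : PushoutI φ)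
      = PushoutI.of 1 ⟨c, hC 1 c.2⟩ := by
    intro c
    have h0 := PushoutI.of_apply_eq_base φ 0 c
    have h1 := PushoutI.of_apply_eq_base φ 1 c
    have e0 : φ 0 c = ⟨c, hC 0 c.2⟩ := rfl
    have e1 : φ 1 c = ⟨c, hC 1 c.2⟩ := rfl
    rw [e0] at h0
    rw [e1] at h1
    rw [h0, h1]
  constructor
  · -- injectivity
    -- representatives of the components
    have hsu : ∀ x, ∃ g : G, (∃ g' : G, Rch G X u v (g' • u) x) → Rch G X u v (g • u) x := by
      intro x
      by_cases h : ∃ g' : G, Rch G X u v (g' • u) x
      · exact ⟨h.choose, fun _ => h.choose_spec⟩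
      · exact ⟨1, fun h' => absurd h' h⟩
    -- choose representatives depending only on the component
    let cl : V → (X.deleteEdges (Orb G u v)).ConnectedComponent := fun x =>
      (X.deleteEdges (Orb G u v)).connectedComponentMk x
    have hcl : ∀ x y, cl x = cl y ↔ Rch G X u v x y := fun x y =>
      SimpleGraph.ConnectedComponent.eq
    have hau : ∀ c : (X.deleteEdges (Orb G u v)).ConnectedComponent, ∃ g : G,
        (∃ g' : G, cl (g' • u) = c) → cl (g • u) = c := by
      intro c
      by_cases h : ∃ g' : G, cl (g' • u) = c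
      · exact ⟨h.choose, fun _ => h.choose_spec⟩
      · exact ⟨1, fun h' => absurd h' h⟩
    have hav : ∀ c : (X.deleteEdges (Orb G u v)).ConnectedComponent, ∃ g : G,
        (∃ g' : G, cl (g' • v) = c) → cl (g • v) = c := by
      intro c
      by_cases h : ∃ g' : G, cl (g' • v) = c
      · exact ⟨h.choose, fun _ => h.choose_spec⟩
      · exact ⟨1, fun h' => absurd h' h⟩
    choose su hsu' using hau
    choose sv hsv' using hav
    have hsuA : ∀ g : G, (su (cl (g • u)))⁻¹ * g ∈ S 0 := by
      intro g
      rw [hS0, mem_Sst]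
      have h1 := (hcl _ _).1 (hsu' (cl (g • u)) ⟨g, rfl⟩)
      have h2 := h1.smul hact (su (cl (g • u)))⁻¹
      rw [inv_smul_smul] at h2
      rw [mul_smul]
      exact h2.symm
    have hsvB : ∀ g : G, (sv (cl (g • v)))⁻¹ * g ∈ S 1 := by
      intro g
      rw [hS1, mem_Sst]
      have h1 := (hcl _ _).1 (hsv' (cl (g • v)) ⟨g, rfl⟩)
      have h2 := h1.smul hact (sv (cl (g • v)))⁻¹
      rw [inv_smul_smul] at h2
      rw [mul_smul]
      exact h2.symm
    let ια : G → PushoutI φ := fun g => PushoutI.of 0 ⟨(su (cl (g • u)))⁻¹ * g, hsuA g⟩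
    let ιβ : G → PushoutI φ := fun g => PushoutI.of 1 ⟨(sv (cl (g • v)))⁻¹ * g, hsvB g⟩
    obtain ⟨Q, hQ1, hQ2⟩ := pot_jump hX hinv (F := PushoutI φ) (fun g => ια g * (ιβ g)⁻¹) (by
      intro g k hk
      have hku : (g * k) • u = g • u := by
        rw [mul_smul, MulAction.mem_stabilizer_iff.1 hk.1]
      have hkv : (g * k) • v = g • v := by
        rw [mul_smul, MulAction.mem_stabilizer_iff.1 hk.2]
      have h1 : ια (g * k) = ια g * PushoutI.of 0 ⟨k, hC 0 hk⟩ := by
        simp only [ια]
        rw [← map_mul]
        congr 1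
        apply Subtype.ext
        simp only [Subgroup.coe_mul, hku, mul_assoc]
      have h2 : ιβ (g * k) = ιβ g * PushoutI.of 1 ⟨k, hC 1 hk⟩ := by
        simp only [ιβ]
        rw [← map_mul]
        congr 1
        apply Subtype.ext
        simp only [Subgroup.coe_mul, hkv, mul_assoc]
      have h3 := hbase ⟨k, hk⟩
      simp only at h3
      rw [h1, h2, h3]
      group)
    let T : G → PushoutI φ := fun g => Q (g • u) * ια g
    have hT : ∀ g, T g = Q (g • v) * ιβ g := by
      intro g
      simp only [T]
      rw [hQ2 g (hact g u v huv)]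
      group
    have hTA : ∀ g (a : S 0), T (g * a) = T g * PushoutI.of 0 a := by
      intro g a
      have ha : Rch G X u v ((a : G) • u) u := (SetLike.ext_iff.1 hS0 _).1 a.2
      have h1 : Rch G X u v ((g * a : G) • u) (g • u) := by
        rw [mul_smul]
        exact ha.smul hact g
      have h2 : ια (g * a) = ια g * PushoutI.of 0 a := by
        simp only [ια]
        rw [← map_mul]
        congr 1
        apply Subtype.ext
        simp only [Subgroup.coe_mul, (hcl _ _).2 h1, mul_assoc]
      simp only [T]
      rw [h2, hQ1 _ _ h1, mul_assoc]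
    have hTB : ∀ g (b : S 1), T (g * b) = T g * PushoutI.of 1 b := by
      intro g b
      have hb : Rch G X u v ((b : G) • v) v := (SetLike.ext_iff.1 hS1 _).1 b.2
      have h1 : Rch G X u v ((g * b : G) • v) (g • v) := by
        rw [mul_smul]
        exact hb.smul hact g
      have h2 : ιβ (g * b) = ιβ g * PushoutI.of 1 b := by
        simp only [ιβ]
        rw [← map_mul]
        congr 1
        apply Subtype.ext
        simp only [Subgroup.coe_mul, (hcl _ _).2 h1, mul_assoc]
      rw [hT, hT, h2, hQ1 _ _ h1, mul_assoc]
    have hTall : ∀ (x : PushoutI φ) (g : G), T (g * nat x) = T g * x := by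
      intro x
      induction x using PushoutI.induction_on with
      | of i a =>
        intro g
        rw [hnat_of]
        fin_cases i
        · exact hTA g a
        · exact hTB g a
      | base c =>
        intro g
        have h0 := PushoutI.of_apply_eq_base φ 0 c
        rw [← h0, hnat_of]
        exact hTA g _
      | mul x y hx hy =>
        intro g
        rw [map_mul, ← mul_assoc, hy, hx, mul_assoc]
    rw [injective_iff_map_eq_one]
    intro x hx
    have h1 := hTall x 1
    rw [hx, mul_one] at h1
    exact (mul_eq_left.1 h1.symm)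
  · -- surjectivity
    have hrange : ∀ i (a : G), a ∈ S i → a ∈ nat.range := fun i a ha =>
      ⟨PushoutI.of i ⟨a, ha⟩, by rw [hnat_of]⟩
    have key : ∀ x y : V, X.Walk x y → (∃ h ∈ nat.range, Rch G X u v (h • u) x ∨
        Rch G X u v (h • v) x) → (∃ h ∈ nat.range, Rch G X u v (h • u) y ∨
        Rch G X u v (h • v) y) := by
      intro x y w
      induction w with
      | nil => exact id
      | @cons a b d hab w ih =>
        rintro ⟨h, hh, hx⟩
        apply ih
        by_cases hO : s(a, b) ∈ Orb G u v
        · obtain ⟨g, hg⟩ := hO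
          rw [Sym2.eq_iff] at hg
          rcases hg with ⟨e1, e2⟩ | ⟨e1, e2⟩
          · -- a = g u, b = g v
            rcases hx with hx | hx
            · have h1 : h⁻¹ * g ∈ S 0 := by
                rw [hS0, mem_Sst, mul_smul]
                rw [e1] at hx
                have := hx.smul hact h⁻¹
                rw [inv_smul_smul] at this
                exact this.symm
              have h2 : g ∈ nat.range := by
                have := nat.range.mul_mem hh (hrange 0 _ h1)
                rwa [mul_inv_cancel_left] at this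
              exact ⟨g, h2, Or.inr (by rw [e2]; exact Rch.refl X u v _)⟩
            · exfalso
              rw [e1] at hx
              have := hx.smul hact h⁻¹
              rw [inv_smul_smul, ← mul_smul] at this
              exact hno _ this.symm
          · -- a = g v, b = g u
            rcases hx with hx | hx
            · exfalso
              rw [e1] at hx
              have := hx.smul hact g⁻¹
              rw [inv_smul_smul, ← mul_smul] at this
              exact hno _ this
            · have h1 : h⁻¹ * g ∈ S 1 := by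
                rw [hS1, mem_Sst, mul_smul]
                rw [e1] at hx
                have := hx.smul hact h⁻¹
                rw [inv_smul_smul] at this
                exact this.symm
              have h2 : g ∈ nat.range := by
                have := nat.range.mul_mem hh (hrange 1 _ h1)
                rwa [mul_inv_cancel_left] at this
              exact ⟨g, h2, Or.inl (by rw [e2]; exact Rch.refl X u v _)⟩
        · have h1 : Rch G X u v a b := Rch.adj hab hO
          refine ⟨h, hh, ?_⟩
          rcases hx with hx | hx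
          · exact Or.inl (hx.trans h1)
          · exact Or.inr (hx.trans h1)
    intro g
    obtain ⟨w⟩ := hX.isConnected.preconnected u (g • u)
    obtain ⟨h, hh, hx⟩ := key u (g • u) w
      ⟨1, nat.range.one_mem, Or.inl (by rw [one_smul]; exact Rch.refl X u v _)⟩
    rcases hx with hx | hx
    · have h1 : h⁻¹ * g ∈ S 0 := by
        rw [hS0, mem_Sst, mul_smul]
        have := hx.smul hact h⁻¹
        rw [inv_smul_smul] at this
        exact this.symm
      have h2 : g ∈ nat.range := by
        have := nat.range.mul_mem hh (hrange 0 _ h1)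
        rwa [mul_inv_cancel_left] at this
      exact h2
    · exfalso
      have := hx.smul hact h⁻¹
      rw [inv_smul_smul, ← mul_smul] at this
      exact hno _ this.symm

end

end Pool.Agent.FrT
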