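import Pool.Agent.Lib.MP_305fdd_al.Fr.T.Pot

/-!
# The tree of a partial action on a tree

`P : PA S V`: a graph `K` with vertices `V`, for every `s : S` a subset `dom s` and a map
`act s` on it.  If `K` is a tree and the domains are nonempty and connected, and `G` is generated by
`S` with relations which are visible at a point, then `G × V / ~` is a tree.
-/

set_option autoImplicit false
set_option linter.unusedSectionVars false
set_option linter.unusedVariables false

namespace Pool.Agent.FrT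

/-- a partial action of letters on a graph -/
structure PA (S V : Type) where
  K : SimpleGraph V
  dom : S → Set V
  act : S → V → V
  col : V → Bool

/-- the group element of a step -/
def sg {S : Type} (σ : S × Bool) : FreeGroup S :=
  if σ.2 then FreeGroup.of σ.1 else (FreeGroup.of σ.1)⁻¹

/-- the label of a word (the first step is on the right) -/
def lab {S : Type} : List (S × Bool) → FreeGroup S
  | [] => 1
  | σ :: γ => lab γ * sg σ

theorem lab_append {S : Type} (γ δ : List (S × Bool)) : lab (γ ++ δ) = lab δ * lab γ := by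
  induction γ with
  | nil => simp [lab]
  | cons σ γ ih => simp [lab, ih, mul_assoc]

namespace PA

variable {S V : Type} (P : PA S V)

/-- one step from `p` to `q` -/
def Stp (σ : S × Bool) (p q : V) : Prop :=
  if σ.2 then p ∈ P.dom σ.1 ∧ q = P.act σ.1 p else q ∈ P.dom σ.1 ∧ p = P.act σ.1 q

/-- the word leads from `p` to `q` -/
def Path : List (S × Bool) → V → V → Prop
  | [], p, q => p = q
  | σ :: γ, p, q => ∃ r, P.Stp σ p r ∧ Path γ r q

theorem path_append (γ δ : List (S × Bool)) (p q : V) :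
    P.Path (γ ++ δ) p q ↔ ∃ r, P.Path γ p r ∧ P.Path δ r q := by
  induction γ generalizing p with
  | nil => simp [Path]
  | cons σ γ ih =>
    simp only [List.cons_append, Path, ih]
    constructor
    · rintro ⟨r, h1, r', h2, h3⟩; exact ⟨r', ⟨r, h1, h2⟩, h3⟩
    · rintro ⟨r', ⟨r, h1, h2⟩, h3⟩; exact ⟨r, h1, r', h2, h3⟩

/-- the reversed word -/
def rev (γ : List (S × Bool)) : List (S × Bool) := (γ.map fun σ => (σ.1, !σ.2)).reverse

theorem stp_inv (σ : S × Bool) (p q : V) : P.Stp (σ.1, !σ.2) q p ↔ P.Stp σ p q := by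
  rcases σ with ⟨s, b⟩
  cases b <;> simp [Stp]

theorem path_rev (γ : List (S × Bool)) (p q : V) (h : P.Path γ p q) : P.Path (rev γ) q p := by
  induction γ generalizing p with
  | nil => exact Eq.symm h
  | cons σ γ ih =>
    obtain ⟨r, h1, h2⟩ := h
    have : rev (σ :: γ) = rev γ ++ [(σ.1, !σ.2)] := by simp [rev]
    rw [this, path_append]
    exact ⟨r, ih r h2, p, (P.stp_inv σ p r).2 h1, rfl⟩

theorem lab_rev (γ : List (S × Bool)) : lab (rev γ) = (lab γ)⁻¹ := by
  induction γ with
  | nil => simp [rev, lab]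
  | cons σ γ ih =>
    have : rev (σ :: γ) = rev γ ++ [(σ.1, !σ.2)] := by simp [rev]
    rw [this, lab_append, ih]
    rcases σ with ⟨s, b⟩
    cases b <;> simp [lab, sg]

/-- the standing hypotheses -/
structure Good : Prop where
  tree : P.K.IsTree
  adj : ∀ s p q, p ∈ P.dom s → q ∈ P.dom s → P.K.Adj p q → P.K.Adj (P.act s p) (P.act s q)
  conn : ∀ s p q, p ∈ P.dom s → q ∈ P.dom s →
    Relation.ReflTransGen (fun a b => P.K.Adj a b ∧ a ∈ P.dom s ∧ b ∈ P.dom s) p q
  ne : ∀ s, (P.dom s).Nonempty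
  colK : ∀ p q, P.K.Adj p q → P.col p ≠ P.col q
  colact : ∀ s p, p ∈ P.dom s → P.col (P.act s p) = P.col p

variable {G : Type} [Group G] (π : FreeGroup S →* G)

/-- the gluing relation -/
def TRel (x y : G × V) : Prop :=
  ∃ s, x.2 ∈ P.dom s ∧ x.1 = y.1 * π (FreeGroup.of s) ∧ y.2 = P.act s x.2

/-- the vertices of the tree -/
def TV : Type := Quot (P.TRel π)

/-- the point `p` of the copy `g` -/
def pt (g : G) (p : V) : P.TV π := Quot.mk _ (g, p)

theorem pt_step (g : G) (s : S) (p : V) (h : p ∈ P.dom s) :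
    P.pt π (g * π (FreeGroup.of s)) p = P.pt π g (P.act s p) :=
  Quot.sound ⟨s, h, rfl, rfl⟩

theorem pt_stp (g : G) (σ : S × Bool) (p q : V) (h : P.Stp σ p q) :
    P.pt π (g * π (sg σ)) p = P.pt π g q := by
  rcases σ with ⟨s, b⟩
  cases b
  · simp only [Stp, Bool.false_eq_true, if_false, sg] at h ⊢
    rw [h.2, ← P.pt_step π _ s q h.1, map_inv, inv_mul_cancel_right]
  · simp only [Stp, if_true, sg] at h ⊢
    rw [h.2, P.pt_step π _ s p h.1]

theorem pt_path (γ : List (S × Bool)) (g : G) (p q : V) (h : P.Path γ p q) :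
    P.pt π (g * π (lab γ)) p = P.pt π g q := by
  induction γ generalizing p with
  | nil => simp only [Path] at h; simp [lab, h]
  | cons σ γ ih =>
    obtain ⟨r, h1, h2⟩ := h
    rw [lab, map_mul, ← mul_assoc, P.pt_stp π _ σ p r h1, ih r h2]

theorem pt_eq_iff (g g' : G) (p p' : V) :
    P.pt π g p = P.pt π g' p' ↔ ∃ γ, P.Path γ p p' ∧ g = g' * π (lab γ) := by
  constructor
  · intro h
    have h' := Quot.eqvGen_exact h
    have key : ∀ x y : G × V, Relation.EqvGen (P.TRel π) x y →
        ∃ γ, P.Path γ x.2 y.2 ∧ x.1 = y.1 * π (lab γ) := by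
      intro x y hxy
      induction hxy with
      | rel x y h =>
        obtain ⟨s, h1, h2, h3⟩ := h
        refine ⟨[(s, true)], ⟨P.act s x.2, by simp [Stp, h1], h3.symm⟩, ?_⟩
        simp [lab, sg, h2]
      | refl x => exact ⟨[], rfl, by simp [lab]⟩
      | symm x y _ ih =>
        obtain ⟨γ, h1, h2⟩ := ih
        refine ⟨rev γ, P.path_rev γ _ _ h1, ?_⟩
        rw [lab_rev, map_inv, h2, mul_inv_cancel_right]
      | trans x y z _ _ ih1 ih2 =>
        obtain ⟨γ, h1, h2⟩ := ih1
        obtain ⟨δ, h3, h4⟩ := ih2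
        refine ⟨γ ++ δ, (P.path_append _ _ _ _).2 ⟨y.2, h1, h3⟩, ?_⟩
        rw [lab_append, map_mul, ← mul_assoc, ← h4, h2]
    exact key _ _ h'
  · rintro ⟨γ, h1, h2⟩
    rw [h2]
    exact P.pt_path π γ g' p p' h1

theorem pt_surj (x : P.TV π) : ∃ g p, P.pt π g p = x := by
  obtain ⟨⟨g, p⟩, h⟩ := Quot.exists_rep x
  exact ⟨g, p, h⟩

/-- the group acts on the tree -/
instance : MulAction G (P.TV π) where
  smul h := Quot.map (fun x => (h * x.1, x.2)) (by
    rintro x y ⟨s, h1, h2, h3⟩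
    exact ⟨s, h1, by simp [h2, mul_assoc], h3⟩)
  one_smul := by
    rintro ⟨g, p⟩
    change Quot.mk _ (1 * g, p) = Quot.mk _ (g, p)
    rw [one_mul]
  mul_smul := by
    rintro h k ⟨g, p⟩
    change Quot.mk _ (h * k * g, p) = Quot.mk _ (h * (k * g), p)
    rw [mul_assoc]

theorem smul_pt (h g : G) (p : V) : h • P.pt π g p = P.pt π (h * g) p := rfl

/-- colours of the vertices of the tree -/
def tcol (hP : P.Good) : P.TV π → Bool :=
  Quot.lift (fun x => P.col x.2) (by
    rintro x y ⟨s, h1, h2, h3⟩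
    show P.col x.2 = P.col y.2
    rw [h3, hP.colact s _ h1])

theorem tcol_pt (hP : P.Good) (g : G) (p : V) : P.tcol π hP (P.pt π g p) = P.col p := rfl

/-- the tree -/
def TG (hP : P.Good) : SimpleGraph (P.TV π) where
  Adj x y := ∃ g p q, P.K.Adj p q ∧ x = P.pt π g p ∧ y = P.pt π g q
  symm := ⟨fun x y ⟨g, p, q, h1, h2, h3⟩ => ⟨g, q, p, h1.symm, h3, h2⟩⟩
  loopless := ⟨fun x ⟨g, p, q, h1, h2, h3⟩ => by
    have := congrArg (P.tcol π hP) (h2.symm.trans h3)
    rw [tcol_pt, tcol_pt] at this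
    exact hP.colK p q h1 this⟩

theorem acts (hP : P.Good) (h : G) (x y : P.TV π) (hxy : (P.TG π hP).Adj x y) :
    (P.TG π hP).Adj (h • x) (h • y) := by
  obtain ⟨g, p, q, h1, h2, h3⟩ := hxy
  exact ⟨h * g, p, q, h1, by rw [h2, smul_pt], by rw [h3, smul_pt]⟩

theorem tcol_smul (hP : P.Good) (h : G) (x : P.TV π) :
    P.tcol π hP (h • x) = P.tcol π hP x := by
  obtain ⟨g, p, rfl⟩ := P.pt_surj π x
  rfl

/-- the stabiliser of a point of the copy `1` -/
theorem stab_iff (g : G) (e : V) :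
    g • P.pt π 1 e = P.pt π 1 e ↔ ∃ γ, P.Path γ e e ∧ g = π (lab γ) := by
  rw [smul_pt, mul_one, pt_eq_iff]
  simp only [one_mul]

theorem connected (hP : P.Good) (hπ : Function.Surjective π) : (P.TG π hP).Connected := by
  obtain ⟨v0⟩ := hP.tree.isConnected.nonempty
  -- inside one copy
  have h1 : ∀ g p q, (P.TG π hP).Reachable (P.pt π g p) (P.pt π g q) := by
    intro g p q
    obtain ⟨w⟩ := hP.tree.isConnected.preconnected p q
    induction w with
    | nil => exact SimpleGraph.Reachable.refl _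
    | cons h w ih =>
      refine SimpleGraph.Reachable.trans (SimpleGraph.Adj.reachable ?_) ih
      exact ⟨g, _, _, h, rfl, rfl⟩
  have h2 : ∀ g s, (P.TG π hP).Reachable (P.pt π g v0) (P.pt π (g * π (FreeGroup.of s)) v0) := by
    intro g s
    obtain ⟨p, hp⟩ := hP.ne s
    refine (h1 g v0 (P.act s p)).trans ?_
    rw [← P.pt_step π g s p hp]
    exact h1 _ _ _
  have h3 : ∀ w : FreeGroup S, ∀ g, (P.TG π hP).Reachable (P.pt π g v0)
      (P.pt π (g * π w) v0) := by
    intro w
    induction w using FreeGroup.induction_on with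
    | C1 => intro g; rw [map_one, mul_one]
    | of s => intro g; exact h2 g s
    | inv_of s ih =>
      intro g
      have := (h2 (g * (π (FreeGroup.of s))⁻¹) s).symm
      rw [inv_mul_cancel_right] at this
      rw [map_inv]
      exact this
    | mul x y ihx ihy =>
      intro g
      rw [map_mul, ← mul_assoc]
      exact (ihx g).trans (ihy _)
  haveI : Nonempty (P.TV π) := ⟨P.pt π 1 v0⟩
  refine ⟨fun x y => ?_⟩
  have h4 : ∀ x, (P.TG π hP).Reachable (P.pt π 1 v0) x := by
    intro x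
    obtain ⟨g, p, rfl⟩ := P.pt_surj π x
    obtain ⟨w, rfl⟩ := hπ g
    have := h3 w 1
    rw [one_mul] at this
    exact this.trans (h1 _ _ _)
  exact (h4 x).symm.trans (h4 y)

/-- Integer cocycles on the edges have potentials: the relations are visible at points. -/
theorem descend (hP : P.Good) (hπ : Function.Surjective π) {R : Set (FreeGroup S)}
    (hker : ∀ w, π w = 1 → w ∈ Subgroup.normalClosure R)
    (hR : ∀ r ∈ R, π r = 1 ∧ ∃ γ p, P.Path γ p p ∧ lab γ = r)
    (c : G → V → V → ℤ) (hanti : ∀ g p q, P.K.Adj p q → c g q p = - c g p q)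
    (hinv : ∀ g s p q, p ∈ P.dom s → q ∈ P.dom s → P.K.Adj p q →
      c (g * π (FreeGroup.of s)) p q = c g (P.act s p) (P.act s q)) :
    ∃ f : G → V → ℤ, (∀ g p q, P.K.Adj p q → f g q = f g p + c g p q) ∧
      ∀ g s p, p ∈ P.dom s → f (g * π (FreeGroup.of s)) p = f g (P.act s p) := by
  choose h hh using fun g => pot hP.tree (c g) (hanti g)
  choose p0 hp0 using hP.ne
  set b : G → S → ℤ := fun g s => h g (P.act s (p0 s)) - h (g * π (FreeGroup.of s)) (p0 s) with hb
  have hconst : ∀ g s p, p ∈ P.dom s →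
      h g (P.act s p) - h (g * π (FreeGroup.of s)) p = b g s := by
    intro g s p hp
    have hr := hP.conn s (p0 s) p (hp0 s) hp
    induction hr with
    | refl => rfl
    | @tail q r _ hqr ih =>
      obtain ⟨a1, a2, a3⟩ := hqr
      rw [← ih a2, hh g _ _ (hP.adj s q r a2 a3 a1), hh (g * π (FreeGroup.of s)) q r a1,
        hinv g s q r a2 a3 a1]
      ring
  -- the permutations
  let E : S → Equiv.Perm (G × ℤ) := fun s =>
    { toFun := fun x => (x.1 * π (FreeGroup.of s), x.2 + b x.1 s)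
      invFun := fun x => (x.1 * (π (FreeGroup.of s))⁻¹, x.2 - b (x.1 * (π (FreeGroup.of s))⁻¹) s)
      left_inv := fun x => by simp
      right_inv := fun x => by simp }
  let Φ : FreeGroup S →* (Equiv.Perm (G × ℤ))ᵐᵒᵖ := FreeGroup.lift fun s => MulOpposite.op (E s)
  let A : FreeGroup S → G × ℤ → G × ℤ := fun w x => (Φ w).unop x
  have A1 : ∀ x, A 1 x = x := fun x => by simp [A]
  have Amul : ∀ w w' x, A (w * w') x = A w' (A w x) := fun w w' x => by
    simp [A, map_mul]
  have Aof : ∀ s x, A (FreeGroup.of s) x = (x.1 * π (FreeGroup.of s), x.2 + b x.1 s) := by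
    intro s x
    simp [A, Φ, E]
  have Ainv : ∀ s x, A (FreeGroup.of s)⁻¹ x
      = (x.1 * (π (FreeGroup.of s))⁻¹, x.2 - b (x.1 * (π (FreeGroup.of s))⁻¹) s) := by
    intro s x
    have h1 : A (FreeGroup.of s) (x.1 * (π (FreeGroup.of s))⁻¹,
        x.2 - b (x.1 * (π (FreeGroup.of s))⁻¹) s) = x := by
      rw [Aof]; simp
    have h2 := Amul (FreeGroup.of s) (FreeGroup.of s)⁻¹ (x.1 * (π (FreeGroup.of s))⁻¹,
        x.2 - b (x.1 * (π (FreeGroup.of s))⁻¹) s)
    rw [mul_inv_cancel, A1, h1] at h2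
    exact h2.symm
  have Afst : ∀ w x, (A w x).1 = x.1 * π w := by
    intro w
    induction w using FreeGroup.induction_on with
    | C1 => intro x; simp [A1]
    | of s => intro x; rw [Aof]
    | inv_of s ih => intro x; rw [Ainv, map_inv]
    | mul w w' ih ih' => intro x; rw [Amul, ih', ih, map_mul, mul_assoc]
  have Astp : ∀ σ g n p q, P.Stp σ p q →
      A (sg σ) (g, n) = (g * π (sg σ), n + (h g q - h (g * π (sg σ)) p)) := by
    rintro ⟨s, bb⟩ g n p q hs
    cases bb
    · simp only [Stp, Bool.false_eq_true, if_false, sg] at hs ⊢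
      rw [Ainv, map_inv, ← hconst _ s q hs.1, inv_mul_cancel_right, hs.2]
      simp only [Prod.mk.injEq, true_and]
      ring
    · simp only [Stp, if_true, sg] at hs ⊢
      rw [Aof, ← hconst g s p hs.1, hs.2]
  have Apath : ∀ γ g n p q, P.Path γ p q →
      A (lab γ) (g, n) = (g * π (lab γ), n + (h g q - h (g * π (lab γ)) p)) := by
    intro γ
    induction γ with
    | nil =>
      intro g n p q hp
      simp only [Path] at hp
      subst hp
      simp [lab, A1]
    | cons σ γ ih =>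
      intro g n p q hp
      obtain ⟨r, h1, h2⟩ := hp
      rw [lab, Amul, ih g n r q h2, Astp σ _ _ p r h1, map_mul, ← mul_assoc]
      simp only [Prod.mk.injEq, true_and]
      ring
  have hΦR : ∀ r ∈ R, Φ r = 1 := by
    intro r hr
    obtain ⟨h1, γ, p, h2, h3⟩ := hR r hr
    have h4 : (Φ r).unop = 1 := by
      ext1 x
      obtain ⟨g, n⟩ := x
      have h5 := Apath γ g n p p h2
      rw [h3, h1] at h5
      change A r (g, n) = (g, n)
      rw [h5]
      simp
    rw [← MulOpposite.op_unop (Φ r), h4, MulOpposite.op_one]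
  have hΦker : ∀ w, π w = 1 → Φ w = 1 := by
    intro w hw
    have h1 : Subgroup.normalClosure R ≤ Φ.ker := by
      apply Subgroup.normalClosure_le_normal
      intro r hr
      exact hΦR r hr
    exact h1 (hker w hw)
  choose wd hwd using hπ
  set a : G → ℤ := fun g => (A (wd g) (1, 0)).2 with ha
  have ha' : ∀ w, (A w (1, 0)) = (π w, a (π w)) := by
    intro w
    have h1 : π ((wd (π w))⁻¹ * w) = 1 := by rw [map_mul, map_inv, hwd, inv_mul_cancel]
    have h2 : A w (1, 0) = A (wd (π w)) (1, 0) := by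
      have h3 : w = wd (π w) * ((wd (π w))⁻¹ * w) := by group
      have h4 : A w (1, 0) = A (wd (π w) * ((wd (π w))⁻¹ * w)) (1, 0) := by rw [← h3]
      rw [h4, Amul]
      have h5 : ∀ x, A ((wd (π w))⁻¹ * w) x = x := by
        intro x
        change (Φ _).unop x = x
        rw [hΦker _ h1]
        rfl
      rw [h5]
    apply Prod.ext
    · rw [Afst]; simp
    · rw [h2]
  have hab : ∀ g s, a (g * π (FreeGroup.of s)) = a g + b g s := by
    intro g s
    have h1 := ha' (wd g * FreeGroup.of s)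
    rw [Amul, ha' (wd g), Aof, map_mul, hwd] at h1
    exact (congrArg Prod.snd h1).symm
  refine ⟨fun g p => a g + h g p, ?_, ?_⟩
  · intro g p q hpq
    show a g + h g q = a g + h g p + c g p q
    rw [hh g p q hpq]
    ring
  · intro g s p hp
    show a (g * π (FreeGroup.of s)) + h (g * π (FreeGroup.of s)) p = a g + h g (P.act s p)
    rw [hab, ← hconst g s p hp]
    ring

/-- the gluing relation for directed edges -/
def DRel (x y : G × V × V) : Prop :=
  ∃ s, x.2.1 ∈ P.dom s ∧ x.2.2 ∈ P.dom s ∧ x.1 = y.1 * π (FreeGroup.of s) ∧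
    y.2.1 = P.act s x.2.1 ∧ y.2.2 = P.act s x.2.2

/-- THE TREE THEOREM -/
theorem isTree (hP : P.Good) (hπ : Function.Surjective π) {R : Set (FreeGroup S)}
    (hker : ∀ w, π w = 1 → w ∈ Subgroup.normalClosure R)
    (hR : ∀ r ∈ R, π r = 1 ∧ ∃ γ p, P.Path γ p p ∧ lab γ = r) : (P.TG π hP).IsTree := by
  classical
  refine tree_of_pot (P.connected π hP hπ) ?_
  rintro x y ⟨g0, p0, q0, h0, rfl, rfl⟩
  let D : G → V → V → Quot (P.DRel π) := fun g p q => Quot.mk _ (g, p, q)
  have Dinv : ∀ g s p q, p ∈ P.dom s → q ∈ P.dom s →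
      D (g * π (FreeGroup.of s)) p q = D g (P.act s p) (P.act s q) := fun g s p q hp hq =>
    Quot.sound ⟨s, hp, hq, rfl, rfl, rfl⟩
  let D1 : Quot (P.DRel π) → P.TV π := Quot.lift (fun x => P.pt π x.1 x.2.1) (by
    rintro x y ⟨s, h1, h2, h3, h4, h5⟩
    show P.pt π x.1 x.2.1 = P.pt π y.1 y.2.1
    rw [h3, h4, P.pt_step π _ s _ h1])
  let D2 : Quot (P.DRel π) → P.TV π := Quot.lift (fun x => P.pt π x.1 x.2.2) (by
    rintro x y ⟨s, h1, h2, h3, h4, h5⟩
    show P.pt π x.1 x.2.2 = P.pt π y.1 y.2.2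
    rw [h3, h5, P.pt_step π _ s _ h2])
  have hD1 : ∀ g p q, D1 (D g p q) = P.pt π g p := fun _ _ _ => rfl
  have hD2 : ∀ g p q, D2 (D g p q) = P.pt π g q := fun _ _ _ => rfl
  let c : G → V → V → ℤ := fun g p q =>
    (if D g p q = D g0 p0 q0 then 1 else 0) - (if D g q p = D g0 p0 q0 then 1 else 0)
  obtain ⟨f, hf1, hf2⟩ := P.descend π hP hπ hker hR c
    (fun g p q _ => by simp only [c]; ring)
    (fun g s p q hp hq _ => by
      simp only [c]
      rw [Dinv g s p q hp hq, Dinv g s q p hq hp])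
  let F : P.TV π → ℤ := Quot.lift (fun x => f x.1 x.2) (by
    rintro x y ⟨s, h1, h2, h3⟩
    show f x.1 x.2 = f y.1 y.2
    rw [h2, h3, hf2 _ s _ h1])
  have hF : ∀ g p, F (P.pt π g p) = f g p := fun _ _ => rfl
  have hrev : D g0 q0 p0 ≠ D g0 p0 q0 := by
    intro h
    have h1 := congrArg (P.tcol π hP) (congrArg D1 h)
    rw [hD1, hD1, tcol_pt, tcol_pt] at h1
    exact hP.colK _ _ h0 h1.symm
  refine ⟨F, ?_, ?_⟩
  · rw [hF, hF, hf1 g0 p0 q0 h0]
    simp only [c, if_true, if_neg hrev]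
    omega
  · rintro a b ⟨g, p, q, hpq, rfl, rfl⟩ hne
    rw [hF, hF, hf1 g p q hpq] at hne
    have hc : c g p q ≠ 0 := fun h => hne (by rw [h, add_zero])
    simp only [c] at hc
    by_cases h1 : D g p q = D g0 p0 q0
    · left
      exact ⟨by rw [← hD1 g p q, h1, hD1], by rw [← hD2 g p q, h1, hD2]⟩
    · by_cases h2 : D g q p = D g0 p0 q0
      · right
        exact ⟨by rw [← hD2 g q p, h2, hD2], by rw [← hD1 g q p, h2, hD1]⟩
      · exact absurd (by rw [if_neg h1, if_neg h2]; rfl) hc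

end PA

end Pool.Agent.FrT
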