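import Pool.Agent.Lib.MP_305fdd_al.Fr.T.BS

/-!
# One-edge splittings from actions on trees: the HNN case, non-triviality
-/

set_option autoImplicit false
set_option linter.unusedSectionVars false
set_option linter.unusedVariables false

namespace Pool.Agent.FrT

variable {G V : Type} [Group G] [MulAction G V]
variable {X : SimpleGraph V} (hact : ∀ (g : G) (x y : V), X.Adj x y → X.Adj (g • x) (g • y))
  {u v : V}

/-- HNN: if `t u` is related to `v`. -/
theorem hnn (hX : X.IsTree) (hinv : ∀ g : G, ¬ (g • u = v ∧ g • v = u)) (huv : X.Adj u v)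
    (t : G) (ht : Rch G X u v (t • u) v)
    (A : Subgroup G) (hA : A = Sst (u := u) (v := v) hact u)
    (C₁ C₂ : Subgroup A) (hC1 : ∀ a : A, a ∈ C₁ ↔ t * (a : G) * t⁻¹ ∈ SC G u v)
    (hC2 : ∀ a : A, a ∈ C₂ ↔ (a : G) ∈ SC G u v)
    (φ : C₁ ≃* C₂) (hφ : ∀ a : C₁, ((φ a : A) : G) = t * ((a : A) : G) * t⁻¹) :
    Function.Bijective (HNNExtension.lift (φ := φ) A.subtype t
      (fun a => by rw [Subgroup.subtype_apply, Subgroup.subtype_apply, hφ]; group)) := by
  classical
  set nat : HNNExtension A C₁ C₂ φ →* G := HNNExtension.lift (φ := φ) A.subtype t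
      (fun a => by rw [Subgroup.subtype_apply, Subgroup.subtype_apply, hφ]; group) with hnat
  have hnat_of : ∀ (a : A), nat (HNNExtension.of a) = a := by
    intro a
    rw [hnat, HNNExtension.lift_of]
    rfl
  have hnat_t : nat HNNExtension.t = t := by
    rw [hnat, HNNExtension.lift_t]
  have hmemA : ∀ g : G, g ∈ A ↔ Rch G X u v (g • u) u := by
    intro g
    rw [hA, mem_Sst]
  constructor
  · let cl : V → (X.deleteEdges (Orb G u v)).ConnectedComponent := fun x =>
      (X.deleteEdges (Orb G u v)).connectedComponentMk x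
    have hcl : ∀ x y, cl x = cl y ↔ Rch G X u v x y := fun x y =>
      SimpleGraph.ConnectedComponent.eq
    have hau : ∀ c : (X.deleteEdges (Orb G u v)).ConnectedComponent, ∃ g : G,
        (∃ g' : G, cl (g' • u) = c) → cl (g • u) = c := by
      intro c
      by_cases h : ∃ g' : G, cl (g' • u) = c
      · exact ⟨h.choose, fun _ => h.choose_spec⟩
      · exact ⟨1, fun h' => absurd h' h⟩
    choose s hs' using hau
    have hsA : ∀ g : G, (s (cl (g • u)))⁻¹ * g ∈ A := by
      intro g
      rw [hmemA]
      have h1 := (hcl _ _).1 (hs' (cl (g • u)) ⟨g, rfl⟩)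
      have h2 := h1.smul hact (s (cl (g • u)))⁻¹
      rw [inv_smul_smul] at h2
      rw [mul_smul]
      exact h2.symm
    have hgt : ∀ g : G, cl ((g * t) • u) = cl (g • v) := by
      intro g
      rw [hcl, mul_smul]
      exact ht.smul hact g
    have hsB : ∀ g : G, (s (cl (g • v)))⁻¹ * (g * t) ∈ A := by
      intro g
      rw [← hgt]
      exact hsA (g * t)
    let ια : G → HNNExtension A C₁ C₂ φ := fun g =>
      HNNExtension.of ⟨(s (cl (g • u)))⁻¹ * g, hsA g⟩
    let ιβ : G → HNNExtension A C₁ C₂ φ := fun g =>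
      HNNExtension.of ⟨(s (cl (g • v)))⁻¹ * (g * t), hsB g⟩
    have hab : ∀ g, ια (g * t) = ιβ g := by
      intro g
      simp only [ια, ιβ]
      congr 2
      rw [hgt]
    obtain ⟨Q, hQ1, hQ2⟩ := pot_jump hX hinv (F := HNNExtension A C₁ C₂ φ)
      (fun g => ια g * HNNExtension.t * (ιβ g)⁻¹) (by
      intro g k hk
      have hku : (g * k) • u = g • u := by
        rw [mul_smul, MulAction.mem_stabilizer_iff.1 hk.1]
      have hkv : (g * k) • v = g • v := by
        rw [mul_smul, MulAction.mem_stabilizer_iff.1 hk.2]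
      have hkA : k ∈ A := by rw [hA]; exact SC_le_u hact hk
      have hkA' : t⁻¹ * k * t ∈ A := by
        rw [hmemA]
        have h1 := ht.smul hact k
        rw [MulAction.mem_stabilizer_iff.1 hk.2] at h1
        have h2 := (h1.trans ht.symm).smul hact t⁻¹
        rw [inv_smul_smul] at h2
        rw [mul_smul, mul_smul]
        exact h2
      have h1 : ια (g * k) = ια g * HNNExtension.of ⟨k, hkA⟩ := by
        simp only [ια]
        rw [← map_mul]
        congr 1
        apply Subtype.ext
        simp only [Subgroup.coe_mul, hku, mul_assoc]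
      have h2 : ιβ (g * k) = ιβ g * HNNExtension.of ⟨t⁻¹ * k * t, hkA'⟩ := by
        simp only [ιβ]
        rw [← map_mul]
        congr 1
        apply Subtype.ext
        simp only [Subgroup.coe_mul, hkv]
        group
      have hk1 : (⟨t⁻¹ * k * t, hkA'⟩ : A) ∈ C₁ := by
        rw [hC1]
        have : t * (t⁻¹ * k * t) * t⁻¹ = k := by group
        rw [this]
        exact hk
      have h3 := HNNExtension.t_mul_of (φ := φ) ⟨⟨t⁻¹ * k * t, hkA'⟩, hk1⟩
      have h4 : ((φ ⟨⟨t⁻¹ * k * t, hkA'⟩, hk1⟩ : C₂) : A) = ⟨k, hkA⟩ := by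
        apply Subtype.ext
        rw [hφ]
        group
      rw [h4] at h3
      rw [h1, h2]
      have h5 : (HNNExtension.of (⟨k, hkA⟩ : A) : HNNExtension A C₁ C₂ φ) * HNNExtension.t
          = HNNExtension.t * HNNExtension.of (⟨t⁻¹ * k * t, hkA'⟩ : A) := h3.symm
      rw [mul_inv_rev]
      calc ια g * HNNExtension.of ⟨k, hkA⟩ * HNNExtension.t *
            ((HNNExtension.of ⟨t⁻¹ * k * t, hkA'⟩)⁻¹ * (ιβ g)⁻¹)
          = ια g * (HNNExtension.of ⟨k, hkA⟩ * HNNExtension.t) *
            ((HNNExtension.of ⟨t⁻¹ * k * t, hkA'⟩)⁻¹ * (ιβ g)⁻¹) := by group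
        _ = ια g * HNNExtension.t * (ιβ g)⁻¹ := by rw [h5]; group)
    let T : G → HNNExtension A C₁ C₂ φ := fun g => Q (g • u) * ια g
    have hTA : ∀ g (a : A), T (g * a) = T g * HNNExtension.of a := by
      intro g a
      have ha : Rch G X u v ((a : G) • u) u := (hmemA _).1 a.2
      have h1 : Rch G X u v ((g * a : G) • u) (g • u) := by
        rw [mul_smul]
        exact ha.smul hact g
      have h2 : ια (g * a) = ια g * HNNExtension.of a := by
        simp only [ια]
        rw [← map_mul]
        congr 1
        apply Subtype.ext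
        simp only [Subgroup.coe_mul, (hcl _ _).2 h1, mul_assoc]
      simp only [T]
      rw [h2, hQ1 _ _ h1, mul_assoc]
    have hTt : ∀ g, T (g * t) = T g * HNNExtension.t := by
      intro g
      have h1 : Rch G X u v ((g * t : G) • u) (g • v) := (hcl _ _).1 (hgt g)
      simp only [T]
      rw [hab, hQ1 _ _ h1, hQ2 g (hact g u v huv)]
      group
    have hTall : ∀ (x : HNNExtension A C₁ C₂ φ) (g : G), T (g * nat x) = T g * x := by
      intro x
      induction x using HNNExtension.induction_on with
      | of a =>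
        intro g
        rw [hnat_of]
        exact hTA g a
      | t =>
        intro g
        rw [hnat_t]
        exact hTt g
      | mul x y hx hy =>
        intro g
        rw [map_mul, ← mul_assoc, hy, hx, mul_assoc]
      | inv x hx =>
        intro g
        have h1 := hx (g * nat x⁻¹)
        have h2 : g * nat x⁻¹ * nat x = g := by
          rw [mul_assoc, ← map_mul]
          simp
        rw [h2] at h1
        rw [h1]
        group
    rw [injective_iff_map_eq_one]
    intro x hx
    have h1 := hTall x 1
    rw [hx, mul_one] at h1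
    exact (mul_eq_left.1 h1.symm)
  · have hrange : ∀ (a : G), a ∈ A → a ∈ nat.range := fun a ha =>
      ⟨HNNExtension.of ⟨a, ha⟩, by rw [hnat_of]⟩
    have htr : t ∈ nat.range := ⟨HNNExtension.t, hnat_t⟩
    have key : ∀ x y : V, X.Walk x y → (∃ h ∈ nat.range, Rch G X u v (h • u) x) →
        (∃ h ∈ nat.range, Rch G X u v (h • u) y) := by
      intro x y w
      induction w with
      | nil => exact id
      | @cons a b d hab w ih =>
        rintro ⟨h, hh, hx⟩
        apply ih
        by_cases hO : s(a, b) ∈ Orb G u v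
        · obtain ⟨g, hg⟩ := hO
          rw [Sym2.eq_iff] at hg
          rcases hg with ⟨e1, e2⟩ | ⟨e1, e2⟩
          · -- a = g u, b = g v
            have h1 : h⁻¹ * g ∈ A := by
              rw [hmemA, mul_smul]
              rw [e1] at hx
              have := hx.smul hact h⁻¹
              rw [inv_smul_smul] at this
              exact this.symm
            have h2 : g ∈ nat.range := by
              have := nat.range.mul_mem hh (hrange _ h1)
              rwa [mul_inv_cancel_left] at this
            refine ⟨g * t, nat.range.mul_mem h2 htr, ?_⟩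
            rw [e2, mul_smul]
            exact ht.smul hact g
          · -- a = g v, b = g u
            have h1 : h⁻¹ * (g * t) ∈ A := by
              rw [hmemA, mul_smul, mul_smul]
              rw [e1] at hx
              have h3 : Rch G X u v (h • u) (g • t • u) := hx.trans (ht.symm.smul hact g)
              have := h3.smul hact h⁻¹
              rw [inv_smul_smul] at this
              exact this.symm
            have h2 : g * t ∈ nat.range := by
              have := nat.range.mul_mem hh (hrange _ h1)
              rwa [mul_inv_cancel_left] at this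
            have h3 : g ∈ nat.range := by
              have := nat.range.mul_mem h2 (nat.range.inv_mem htr)
              rwa [mul_inv_cancel_right] at this
            exact ⟨g, h3, by rw [e2]; exact Rch.refl X u v _⟩
        · exact ⟨h, hh, hx.trans (Rch.adj hab hO)⟩
    intro g
    obtain ⟨w⟩ := hX.isConnected.preconnected u (g • u)
    obtain ⟨h, hh, hx⟩ := key u (g • u) w
      ⟨1, nat.range.one_mem, by rw [one_smul]; exact Rch.refl X u v _⟩
    have h1 : h⁻¹ * g ∈ A := by
      rw [hmemA, mul_smul]
      have := hx.smul hact h⁻¹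
      rw [inv_smul_smul] at this
      exact this.symm
    have := nat.range.mul_mem hh (hrange _ h1)
    rwa [mul_inv_cancel_left] at this

/-- the data of the HNN case exist -/
theorem hnn_data (t : G) (ht : Rch G X u v (t • u) v)
    (A : Subgroup G) (hA : A = Sst (u := u) (v := v) hact u) :
    ∃ (C₁ C₂ : Subgroup A) (φ : C₁ ≃* C₂), (∀ a : A, a ∈ C₁ ↔ t * (a : G) * t⁻¹ ∈ SC G u v) ∧
      (∀ a : A, a ∈ C₂ ↔ (a : G) ∈ SC G u v) ∧
      (∀ a : C₁, ((φ a : A) : G) = t * ((a : A) : G) * t⁻¹) := by
  have hmemA : ∀ g : G, g ∈ A ↔ Rch G X u v (g • u) u := by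
    intro g
    rw [hA, mem_Sst]
  have hkA' : ∀ k : G, k ∈ SC G u v → t⁻¹ * k * t ∈ A := by
    intro k hk
    rw [hmemA]
    have h1 := ht.smul hact k
    rw [MulAction.mem_stabilizer_iff.1 hk.2] at h1
    have h2 := (h1.trans ht.symm).smul hact t⁻¹
    rw [inv_smul_smul] at h2
    rw [mul_smul, mul_smul]
    exact h2
  have hkA : ∀ k : G, k ∈ SC G u v → k ∈ A := by
    intro k hk
    rw [hA]
    exact SC_le_u hact hk
  let C₁ : Subgroup A := ((SC G u v).comap (MulAut.conj t).toMonoidHom).comap A.subtype
  let C₂ : Subgroup A := (SC G u v).comap A.subtype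
  have m1 : ∀ a : A, a ∈ C₁ ↔ t * (a : G) * t⁻¹ ∈ SC G u v := by
    intro a
    simp only [C₁, Subgroup.mem_comap, MulEquiv.coe_toMonoidHom, MulAut.conj_apply,
      Subgroup.subtype_apply]
  have m2 : ∀ a : A, a ∈ C₂ ↔ (a : G) ∈ SC G u v := by
    intro a
    simp only [C₂, Subgroup.mem_comap, Subgroup.subtype_apply]
  refine ⟨C₁, C₂, ?_, m1, m2, ?_⟩
  · exact
      { toFun := fun a => ⟨⟨t * ((a : A) : G) * t⁻¹, hkA _ ((m1 _).1 a.2)⟩,
          (m2 _).2 ((m1 _).1 a.2)⟩
        invFun := fun a => ⟨⟨t⁻¹ * ((a : A) : G) * t, hkA' _ ((m2 _).1 a.2)⟩, by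
          rw [m1]
          have : t * (t⁻¹ * ((a : A) : G) * t) * t⁻¹ = ((a : A) : G) := by group
          simp only [this]
          exact (m2 _).1 a.2⟩
        left_inv := by
          intro a
          apply Subtype.ext
          apply Subtype.ext
          simp only
          group
        right_inv := by
          intro a
          apply Subtype.ext
          apply Subtype.ext
          simp only
          group
        map_mul' := by
          intro a b
          apply Subtype.ext
          apply Subtype.ext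
          simp only [Subgroup.coe_mul]
          group }
  · intro a
    rfl

include hact in
/-- dichotomy -/
theorem amalg_or_hnn : (∀ g : G, ¬ Rch G X u v (g • u) v) ∨ ∃ t : G, Rch G X u v (t • u) v := by
  by_cases h : ∃ t : G, Rch G X u v (t • u) v
  · exact Or.inr h
  · exact Or.inl (fun g hg => h ⟨g, hg⟩)

/-- a vertex stabiliser is conjugate into one of the vertex groups -/
theorem stab_conj (hX : X.IsTree) (x : V) :
    ∃ g : G, (∀ h : G, h • x = x → g⁻¹ * h * g ∈ Sst (u := u) (v := v) hact u) ∨
      (∀ h : G, h • x = x → g⁻¹ * h * g ∈ Sst (u := u) (v := v) hact v) := by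
  have key : ∀ a b : V, X.Walk a b → (∃ g : G, Rch G X u v (g • u) a ∨
        Rch G X u v (g • v) a) → (∃ g : G, Rch G X u v (g • u) b ∨
        Rch G X u v (g • v) b) := by
    intro x y w
    induction w with
    | nil => exact id
    | @cons a b d hab w ih =>
      rintro ⟨h, hx⟩
      apply ih
      by_cases hO : s(a, b) ∈ Orb G u v
      · obtain ⟨g, hg⟩ := hO
        rw [Sym2.eq_iff] at hg
        rcases hg with ⟨e1, e2⟩ | ⟨e1, e2⟩
        · exact ⟨g, Or.inr (by rw [e2]; exact Rch.refl X u v _)⟩
        · exact ⟨g, Or.inl (by rw [e2]; exact Rch.refl X u v _)⟩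
      · have h1 : Rch G X u v a b := Rch.adj hab hO
        refine ⟨h, ?_⟩
        rcases hx with hx | hx
        · exact Or.inl (hx.trans h1)
        · exact Or.inr (hx.trans h1)
  obtain ⟨w⟩ := hX.isConnected.preconnected u x
  obtain ⟨g, hg⟩ := key u x w ⟨1, Or.inl (by rw [one_smul]; exact Rch.refl X u v _)⟩
  refine ⟨g, ?_⟩
  rcases hg with hg | hg
  · left
    intro h hh
    rw [mem_Sst, mul_smul, mul_smul]
    have h1 := hg.smul hact h
    rw [hh] at h1
    have h2 := (h1.trans hg.symm).smul hact g⁻¹
    rwa [inv_smul_smul] at h2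
  · right
    intro h hh
    rw [mem_Sst, mul_smul, mul_smul]
    have h1 := hg.smul hact h
    rw [hh] at h1
    have h2 := (h1.trans hg.symm).smul hact g⁻¹
    rwa [inv_smul_smul] at h2

/-- non-triviality: the path from `u` to `g u` passes a translate of the edge -/
theorem Sst_ne_top (hX : X.IsTree) {x : V} {g : G} (p : X.Walk x (g • x)) (hp : p.IsPath)
    (he : ∃ e ∈ p.edges, e ∈ Orb G u v) : Sst (u := u) (v := v) hact x ≠ ⊤ := by
  classical
  intro htop
  have h1 : g ∈ Sst (u := u) (v := v) hact x := by rw [htop]; trivial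
  rw [mem_Sst] at h1
  obtain ⟨w⟩ := h1.symm
  obtain ⟨e, he1, he2⟩ := he
  have h2 : (w.mapLe (SimpleGraph.deleteEdges_le _)).bypass = p := by
    have := hX.isAcyclic.path_unique
      ⟨(w.mapLe (SimpleGraph.deleteEdges_le _)).bypass, SimpleGraph.Walk.bypass_isPath _⟩ ⟨p, hp⟩
    exact congrArg Subtype.val this
  rw [← h2] at he1
  have h3 := SimpleGraph.Walk.edges_bypass_subset _ he1
  rw [SimpleGraph.Walk.edges_mapLe_eq_edges] at h3
  have h4 := w.edges_subset_edgeSet h3
  rw [SimpleGraph.edgeSet_deleteEdges] at h4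
  exact h4.2 he2

end Pool.Agent.FrT
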