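import Mathlib

/-!
# Potentials on trees; a graph all of whose edges are separated by potentials is a tree
-/

set_option autoImplicit false

namespace Pool.Agent.FrT

private def wp {V : Type} {X : SimpleGraph V} (c : V → V → ℤ) :
    {u v : V} → X.Walk u v → ℤ
  | _, _, .nil => 0
  | a, _, .cons (v := b) _ q => c a b + wp c q

private theorem wp_append {V : Type} {X : SimpleGraph V} (c : V → V → ℤ) {u v w : V}
    (p : X.Walk u v) (q : X.Walk v w) : wp c (p.append q) = wp c p + wp c q := by
  induction p with
  | nil => simp [wp]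
  | cons h p ih => simp [wp, ih, add_assoc]

private theorem wp_single {V : Type} {X : SimpleGraph V} (c : V → V → ℤ) {u v : V}
    (h : X.Adj u v) : wp c (SimpleGraph.Walk.cons h SimpleGraph.Walk.nil) = c u v := by
  simp [wp]

/-- potentials on trees -/
theorem pot {V : Type} {X : SimpleGraph V} (hX : X.IsTree) (c : V → V → ℤ)
    (hc : ∀ u v, X.Adj u v → c v u = - c u v) :
    ∃ P : V → ℤ, ∀ u v, X.Adj u v → P v = P u + c u v := by
  classical
  obtain ⟨v0⟩ := hX.isConnected.nonempty
  have hu : ∀ {a b : V} (p q : X.Walk a b), p.IsPath → q.IsPath → p = q := by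
    intro a b p q hp hq
    have := hX.isAcyclic.path_unique ⟨p, hp⟩ ⟨q, hq⟩
    exact congrArg Subtype.val this
  choose p hp hp' using fun v => hX.existsUnique_path v0 v
  refine ⟨fun v => wp c (p v), ?_⟩
  intro u v h
  show wp c (p v) = wp c (p u) + c u v
  by_cases hv : v ∈ (p u).support
  · have h1 : (p u).takeUntil v hv = p v := hu _ _ ((hp u).takeUntil hv) (hp v)
    have h2 : (p u).dropUntil v hv = SimpleGraph.Walk.cons h.symm SimpleGraph.Walk.nil := by
      refine hu _ _ ((hp u).dropUntil hv) ?_
      simp [SimpleGraph.Walk.cons_isPath_iff, h.ne']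
    have h3 : wp c (p u) = wp c (p v) + c v u := by
      rw [← (p u).take_spec hv, wp_append, h1, h2, wp_single]
    rw [h3, hc u v h]
    ring
  · have h1 : (p u).concat h = p v := hu _ _ ((hp u).concat hv h) (hp v)
    rw [← h1, SimpleGraph.Walk.concat_eq_append, wp_append, wp_single]

/-- A connected graph is a tree if for every edge there is an integer function which changes
along this edge only. -/
theorem tree_of_pot {V : Type} {X : SimpleGraph V} (hconn : X.Connected)
    (h : ∀ u v, X.Adj u v → ∃ f : V → ℤ, f u ≠ f v ∧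
      ∀ a b, X.Adj a b → f a ≠ f b → (a = u ∧ b = v) ∨ (a = v ∧ b = u)) : X.IsTree := by
  refine ⟨hconn, ?_⟩
  rw [SimpleGraph.isAcyclic_iff_forall_adj_isBridge]
  intro u v huv
  obtain ⟨f, hf, hf'⟩ := h u v huv
  rw [SimpleGraph.isBridge_iff]
  intro hr
  obtain ⟨p⟩ := hr
  have key : ∀ (a b : V), (X \ SimpleGraph.fromEdgeSet {s(u, v)}).Walk a b → f a = f b := by
    intro a b q
    induction q with
    | nil => rfl
    | @cons a b c h q ih =>
      rw [← ih]
      by_contra hne
      rw [SimpleGraph.sdiff_adj] at h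
      obtain ⟨h1, h2⟩ := h
      apply h2
      rw [SimpleGraph.fromEdgeSet_adj]
      refine ⟨?_, h1.ne⟩
      rw [Set.mem_singleton_iff]
      rcases hf' a b h1 hne with ⟨e1, e2⟩ | ⟨e1, e2⟩
      · rw [e1, e2]
      · rw [e1, e2]; exact Sym2.eq_swap
  exact hf (key u v p)

end Pool.Agent.FrT
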